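import Pool.Agent.H53.PNF.Ext

/-!
# PNF, row EXT3: the unramified extension is complete, its residue field
-/

set_option autoImplicit false

namespace Pool.PNF.EX

open Polynomial Pool.HYP Pool.TOW Pool.AVS Pool.T1 Pool.PRK IsLocalRing Pool.TOW.UD

section Gen

variable {L : Type} [Field L] {O : ValuationSubring L} {π : L}

theorem mx (H : LocW L O π) : maximalIdeal O = Ideal.span {pp H} := by
  ext x
  rw [← residue_eq_zero_iff, W.residue_zero_iff H (pp H) rfl, Ideal.mem_span_singleton]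

theorem smod (H : LocW L O π) (n : ℕ) (x y : O) :
    x ≡ y [SMOD (maximalIdeal O ^ n • ⊤ : Submodule O O)] ↔ pp H ^ n ∣ x - y := by
  rw [SModEq.sub_mem, mx H, Ideal.span_singleton_pow, smul_eq_mul, Ideal.mul_top,
    Ideal.mem_span_singleton]

theorem lim (H : LocW L O π) (hc : IsAdicComplete (maximalIdeal O) O) (f : ℕ → O)
    (hf : ∀ m n, m ≤ n → pp H ^ m ∣ f m - f n) : ∃ l : O, ∀ n, pp H ^ n ∣ f n - l := by
  obtain ⟨l, hl⟩ := hc.toIsPrecomplete.prec (f := f) fun {m n} h => (smod H m _ _).2 (hf m n h)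
  exact ⟨l, fun n => (smod H n _ _).1 (hl n)⟩

end Gen

section

variable {L : Type} [Field L] {O : ValuationSubring L} {π : L}
variable {f₀ : O[X]} [Fact (Irreducible (oL O f₀))]

/-- The map from the polynomials to the valuation ring. -/
noncomputable def mk' (H : LocW L O π) (hm : f₀.Monic) (hi : Irreducible (rd O f₀)) :
    O[X] →+* OA H hm hi :=
  (mkO f₀).codRestrict (OA H hm hi) fun p => (mem_OA H hm hi _).2 ⟨p, rfl⟩

theorem coe_mk' (H : LocW L O π) (hm : f₀.Monic) (hi : Irreducible (rd O f₀)) (p : O[X]) :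
    ((mk' H hm hi p : OA H hm hi) : AdjoinRoot (oL O f₀)) = mkO f₀ p := rfl

theorem mk'_pp (H : LocW L O π) (hm : f₀.Monic) (hi : Irreducible (rd O f₀)) :
    mk' H hm hi (C (pp H)) = pp (locW H hm hi) := Subtype.ext (mkO_C f₀ (pp H))

theorem mk'_zero (H : LocW L O π) (hm : f₀.Monic) (hi : Irreducible (rd O f₀)) (p : O[X]) :
    mk' H hm hi p = 0 ↔ f₀ ∣ p := by
  rw [← mkO_eq_zero hm, ← coe_mk' H hm hi]
  exact ⟨fun h => by rw [h]; rfl, fun h => Subtype.ext h⟩

theorem mk'_surj (H : LocW L O π) (hm : f₀.Monic) (hi : Irreducible (rd O f₀))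
    (a : OA H hm hi) : ∃ p : O[X], p.degree < f₀.degree ∧ mk' H hm hi p = a := by
  obtain ⟨p, hp⟩ := (mem_OA H hm hi a).1 a.2
  refine ⟨p %ₘ f₀, degree_modByMonic_lt p hm, ?_⟩
  apply Subtype.ext
  rw [coe_mk', hp]
  have h6 := modByMonic_add_div p f₀
  conv_rhs => rw [← h6]
  rw [map_add, map_mul, mkO_self, zero_mul, add_zero]

theorem mk'_dvd (H : LocW L O π) (hm : f₀.Monic) (hi : Irreducible (rd O f₀)) (n : ℕ) (p : O[X])
    (hp : p.degree < f₀.degree) :
    pp (locW H hm hi) ^ n ∣ mk' H hm hi p ↔ C (pp H ^ n) ∣ p := by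
  rw [← mk'_pp, ← map_pow, ← C_pow]
  constructor
  · rintro ⟨y, hy⟩
    obtain ⟨q, hq, rfl⟩ := mk'_surj H hm hi y
    rw [← map_mul, ← sub_eq_zero, ← map_sub, mk'_zero] at hy
    have h2 : (C (pp H ^ n) * q).degree ≤ q.degree := by
      refine (degree_mul_le _ _).trans ?_
      calc (C (pp H ^ n)).degree + q.degree ≤ 0 + q.degree := by gcongr; exact degree_C_le
        _ = q.degree := zero_add _
    have h1 : p - C (pp H ^ n) * q = 0 := by
      refine eq_zero_of_dvd_of_degree_lt hy ?_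
      exact lt_of_le_of_lt (degree_sub_le _ _) (max_lt hp (lt_of_le_of_lt h2 hq))
    exact ⟨q, sub_eq_zero.1 h1⟩
  · exact fun h => map_dvd _ h

theorem haus (H : LocW L O π) (hm : f₀.Monic) (hi : Irreducible (rd O f₀)) :
    IsHausdorff (maximalIdeal (OA H hm hi)) (OA H hm hi) := by
  refine ⟨fun x hx => ?_⟩
  by_contra h0
  have h1 : (x : AdjoinRoot (oL O f₀)) ≠ 0 := fun h => h0 (Subtype.ext h)
  obtain ⟨n, p, hp, hx'⟩ := form H hm hi _ h1
  have hn : 0 ≤ n := (mem_OA' H hm hi n p hp).1 (hx' ▸ x.2)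
  lift n to ℕ using hn
  obtain ⟨y, hy⟩ := (smod (locW H hm hi) (n + 1) x 0).1 (hx _)
  rw [sub_zero] at hy
  have h3 : (x : AdjoinRoot (oL O f₀)) = (AdjoinRoot.of (oL O f₀) π) ^ (n + 1) * y :=
    congrArg Subtype.val hy
  have hpi := of_pi_ne (f₀ := f₀) H
  have h2 : (y : AdjoinRoot (oL O f₀)) = (AdjoinRoot.of (oL O f₀) π) ^ (-1 : ℤ) * mkO f₀ p := by
    have h4 : (AdjoinRoot.of (oL O f₀) π) ^ (n + 1) ≠ 0 := pow_ne_zero _ hpi
    apply mul_left_cancel₀ h4
    rw [← h3, hx', pow_succ, zpow_natCast, zpow_neg_one]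
    field_simp
  have h5 := (mem_OA' H hm hi (-1) p hp).1 (h2 ▸ y.2)
  omega

theorem prec (H : LocW L O π) (hm : f₀.Monic) (hi : Irreducible (rd O f₀))
    (hc : IsAdicComplete (maximalIdeal O) O) :
    IsPrecomplete (maximalIdeal (OA H hm hi)) (OA H hm hi) := by
  refine ⟨fun F hF => ?_⟩
  choose P hP hP' using fun n => mk'_surj H hm hi (F n)
  have hd : ∀ {p q : O[X]}, p.degree < f₀.degree → q.degree < f₀.degree →
      (p - q).degree < f₀.degree := fun h1 h2 => lt_of_le_of_lt (degree_sub_le _ _) (max_lt h1 h2)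
  have h1 : ∀ m n, m ≤ n → C (pp H ^ m) ∣ P m - P n := by
    intro m n h
    rw [← mk'_dvd H hm hi m _ (hd (hP m) (hP n)), map_sub, hP', hP']
    exact (smod (locW H hm hi) m _ _).1 (hF h)
  have h2 : ∀ i, ∃ l : O, ∀ n, pp H ^ n ∣ (P n).coeff i - l := by
    intro i
    refine lim H hc (fun n => (P n).coeff i) fun m n h => ?_
    have h3 := (C_dvd_iff_dvd_coeff _ _).1 (h1 m n h) i
    rwa [coeff_sub] at h3
  choose l hl using h2
  set Q : O[X] := ∑ i ∈ Finset.range f₀.natDegree, monomial i (l i) with hQ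
  have hQc : ∀ i, Q.coeff i = if i < f₀.natDegree then l i else 0 := by
    intro i
    rw [hQ, finsetSum_coeff]
    simp only [coeff_monomial]
    rw [Finset.sum_ite_eq' (Finset.range f₀.natDegree) i]
    simp only [Finset.mem_range]
  have hdeg : f₀.degree = f₀.natDegree := degree_eq_natDegree hm.ne_zero
  have hQd : Q.degree < f₀.degree := by
    rw [hdeg, degree_lt_iff_coeff_zero]
    intro i hi'
    rw [hQc, if_neg (not_lt.2 hi')]
  refine ⟨mk' H hm hi Q, fun n => (smod (locW H hm hi) n _ _).2 ?_⟩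
  rw [← hP' n, ← map_sub, mk'_dvd H hm hi n _ (hd (hP n) hQd), C_dvd_iff_dvd_coeff]
  intro i
  rw [coeff_sub, hQc]
  split_ifs with hlt
  · exact hl i n
  · have h4 : (P n).coeff i = 0 := by
      have h5 := hP n
      rw [hdeg, degree_lt_iff_coeff_zero] at h5
      exact h5 i (not_lt.1 hlt)
    rw [h4, sub_zero]
    exact dvd_zero _

theorem resf (H : LocW L O π) (hm : f₀.Monic) (hi : Irreducible (rd O f₀)) :
    ∃ Φ : (Fin f₀.natDegree → ResidueField O) → ResidueField (OA H hm hi),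
      Function.Bijective Φ := by
  classical
  set lf : ResidueField O → O := Function.surjInv residue_surjective with hlf
  have hlf' : ∀ c, residue O (lf c) = c := Function.surjInv_eq residue_surjective
  have hdeg : f₀.degree = f₀.natDegree := degree_eq_natDegree hm.ne_zero
  set Q : (Fin f₀.natDegree → ResidueField O) → O[X] := fun c => ∑ i : Fin f₀.natDegree, monomial (i : ℕ) (lf (c i))
    with hQ
  have hQc : ∀ c i, (Q c).coeff i = if h : i < f₀.natDegree then lf (c ⟨i, h⟩) else 0 := by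
    intro c i
    simp only [hQ, finsetSum_coeff, coeff_monomial]
    split_ifs with h
    · rw [Finset.sum_eq_single (⟨i, h⟩ : Fin f₀.natDegree)]
      · simp
      · intro j _ hj
        rw [if_neg]
        intro h1
        exact hj (Fin.ext h1)
      · intro h1
        exact absurd (Finset.mem_univ _) h1
    · refine Finset.sum_eq_zero fun j _ => if_neg ?_
      intro h1
      exact h (h1 ▸ j.2)
  have hQd : ∀ c, (Q c).degree < f₀.degree := by
    intro c
    rw [hdeg, degree_lt_iff_coeff_zero]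
    intro i hi'
    rw [hQc, dif_neg (not_lt.2 hi')]
  have hd : ∀ {p q : O[X]}, p.degree < f₀.degree → q.degree < f₀.degree →
      (p - q).degree < f₀.degree := fun h1 h2 => lt_of_le_of_lt (degree_sub_le _ _) (max_lt h1 h2)
  have hz : ∀ p : O[X], p.degree < f₀.degree → (residue (OA H hm hi) (mk' H hm hi p) = 0 ↔
      ∀ i, residue O (p.coeff i) = 0) := by
    intro p hp
    rw [W.residue_zero_iff (locW H hm hi) (pp (locW H hm hi)) rfl]
    have h1 := mk'_dvd H hm hi 1 p hp
    rw [pow_one, pow_one] at h1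
    rw [h1, C_dvd_iff_dvd_coeff]
    exact forall_congr' fun i => (W.residue_zero_iff H (pp H) rfl _).symm
  refine ⟨fun c => residue (OA H hm hi) (mk' H hm hi (Q c)), ?_, ?_⟩
  · intro c c' h
    have h1 : residue (OA H hm hi) (mk' H hm hi (Q c - Q c')) = 0 := by
      rw [map_sub, map_sub]
      exact sub_eq_zero.2 h
    rw [hz _ (hd (hQd c) (hQd c'))] at h1
    funext i
    have h2 := h1 i
    rw [coeff_sub, hQc, hQc, dif_pos i.2, dif_pos i.2, map_sub, hlf', hlf', sub_eq_zero] at h2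
    exact h2
  · intro a
    obtain ⟨x, rfl⟩ := residue_surjective a
    obtain ⟨p, hp, rfl⟩ := mk'_surj H hm hi x
    refine ⟨fun i => residue O (p.coeff i), ?_⟩
    rw [← sub_eq_zero]
    show residue (OA H hm hi) (mk' H hm hi (Q fun i => residue O (p.coeff i))) -
      residue (OA H hm hi) (mk' H hm hi p) = 0
    rw [← map_sub, ← map_sub, hz _ (hd (hQd _) hp)]
    intro i
    rw [coeff_sub, hQc]
    split_ifs with hlt
    · rw [map_sub, hlf', sub_self]
    · have h4 : p.coeff i = 0 := by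
        rw [hdeg, degree_lt_iff_coeff_zero] at hp
        exact hp i (not_lt.1 hlt)
      rw [h4, sub_zero, map_zero]

end

end Pool.PNF.EX

namespace Pool.PNF

open EX Polynomial Pool.HYP Pool.TOW Pool.AVS Pool.T1 Pool.PRK IsLocalRing Pool.TOW.UD

theorem ext3 : EXT3Stmt := by
  intro L _ O π e hD f₀ hf _
  obtain ⟨hm, h3, hi⟩ := hf
  have H := hD.loc
  obtain ⟨Φ, hΦ⟩ := resf (f₀ := f₀) H hm hi
  have := hD.fin
  have hof : ∀ x : L, x ∈ O → AdjoinRoot.of (oL O f₀) x ∈ OA H hm hi := fun x hx =>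
    (mem_OA H hm hi _).2 ⟨C ⟨x, hx⟩, (mkO_C f₀ ⟨x, hx⟩).symm⟩
  have h2 : AdjoinRoot.of (oL O f₀) (2 / π ^ e) = 2 / (AdjoinRoot.of (oL O f₀) π) ^ e := by
    rw [map_div₀, map_pow, map_ofNat]
  refine ⟨OA H hm hi, ⟨locW H hm hi, ?_, ⟨?_, ?_⟩, hD.pos, ?_, ?_⟩, ?_, ?_⟩
  · intro h
    apply hD.ne
    apply (AdjoinRoot.of (oL O f₀)).injective
    rw [map_ofNat, map_zero]
    exact h
  · rw [← h2]
    exact hof _ hD.two.1
  · rw [← h2, ← map_inv₀]
    exact hof _ hD.two.2
  · exact { toIsHausdorff := haus H hm hi, toIsPrecomplete := prec H hm hi hD.cpl }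
  · exact Finite.of_surjective Φ hΦ.2
  · have h4 : Nat.card (ResidueField (OA H hm hi)) = Nat.card (ResidueField O) ^ 3 := by
      rw [← Nat.card_eq_of_bijective Φ hΦ, Nat.card_fun, Nat.card_fin, h3]
    exact h4
  · exact mem_OA H hm hi

end Pool.PNF
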