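import Pool.Agent.H53.PNF.D
import Pool.Agent.H95.PRK.LULK

/-!
# PNF, row NSC: the number of the classes of square norm
-/

set_option autoImplicit false

namespace Pool.PNF.NS53

open Polynomial Pool.HYP Pool.TOW Pool.AVS Pool.T1 Pool.PRK IsLocalRing Pool.TOW.UD

/-- The kernel of the norm on the units modulo squares. -/
theorem core {L A : Type} [Field L] [Field A] [Algebra L A] (O : ValuationSubring L)
    (OA : ValuationSubring A) (N : A →* L) (hN : ∀ a ∈ OA, N a ∈ O)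
    (hc : ∀ c ∈ O, algebraMap L A c ∈ OA) (hNc : ∀ c : L, N (algebraMap L A c) = c ^ 3) :
    ∃ K : Subgroup (OAˣ ⧸ (powMonoidHom 2 : OAˣ →* OAˣ).range),
      Nat.card (OAˣ ⧸ (powMonoidHom 2 : OAˣ →* OAˣ).range) =
        Nat.card (Oˣ ⧸ (powMonoidHom 2 : Oˣ →* Oˣ).range) * Nat.card K ∧
      ∀ w : OAˣ, IsSquare (N ((w : OA) : A)) →
        (QuotientGroup.mk w : OAˣ ⧸ (powMonoidHom 2 : OAˣ →* OAˣ).range) ∈ K := by
  let NO : OA →* O :=
    { toFun := fun x => ⟨N x, hN x x.2⟩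
      map_one' := Subtype.ext (map_one N)
      map_mul' := fun x y => Subtype.ext (map_mul N (x : A) (y : A)) }
  have hNO : ∀ x : OA, ((NO x : O) : L) = N x := fun x => rfl
  let NU : OAˣ →* Oˣ := Units.map NO
  have hNU : ∀ x : OAˣ, ((NU x : O) : L) = N ((x : OA) : A) := fun x => rfl
  have hle : (powMonoidHom 2 : OAˣ →* OAˣ).range ≤
      ((powMonoidHom 2 : Oˣ →* Oˣ).range).comap NU := by
    rintro _ ⟨w, rfl⟩
    exact ⟨NU w, by rw [powMonoidHom_apply, powMonoidHom_apply, map_pow]⟩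
  let Φ := QuotientGroup.map (powMonoidHom 2 : OAˣ →* OAˣ).range
    (powMonoidHom 2 : Oˣ →* Oˣ).range NU hle
  have hsurj : Function.Surjective Φ := by
    intro y
    obtain ⟨c, rfl⟩ := QuotientGroup.mk_surjective y
    have h1 : ((c : O) : L) * (((c⁻¹ : Oˣ) : O) : L) = 1 := by
      rw [← MulMemClass.coe_mul, c.mul_inv]
      rfl
    let c' : OAˣ := ⟨⟨algebraMap L A ((c : O) : L), hc _ (c : O).2⟩,
      ⟨algebraMap L A (((c⁻¹ : Oˣ) : O) : L), hc _ ((c⁻¹ : Oˣ) : O).2⟩,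
      Subtype.ext (by
        show algebraMap L A ((c : O) : L) * algebraMap L A (((c⁻¹ : Oˣ) : O) : L) = 1
        rw [← map_mul, h1, map_one]),
      Subtype.ext (by
        show algebraMap L A (((c⁻¹ : Oˣ) : O) : L) * algebraMap L A ((c : O) : L) = 1
        rw [← map_mul, mul_comm, h1, map_one])⟩
    have h2 : NU c' = c ^ 3 := by
      apply Units.ext
      apply Subtype.ext
      rw [hNU]
      show N (algebraMap L A ((c : O) : L)) = _
      rw [hNc]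
      rfl
    refine ⟨QuotientGroup.mk c', ?_⟩
    show QuotientGroup.mk (NU c') = QuotientGroup.mk c
    rw [h2, QuotientGroup.eq]
    refine ⟨c⁻¹, ?_⟩
    rw [powMonoidHom_apply]
    group
  refine ⟨Φ.ker, ?_, ?_⟩
  · rw [Subgroup.card_eq_card_quotient_mul_card_subgroup Φ.ker,
      Nat.card_congr (QuotientGroup.quotientKerEquivOfSurjective Φ hsurj).toEquiv]
  · rintro w ⟨s, hs⟩
    have h1 : ((w : OA) : A) * (((w⁻¹ : OAˣ) : OA) : A) = 1 := by
      rw [← MulMemClass.coe_mul, w.mul_inv]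
      rfl
    have h2 : N ((w : OA) : A) * N (((w⁻¹ : OAˣ) : OA) : A) = 1 := by
      rw [← map_mul, h1, map_one]
    have h3 : s ∈ O := SQ95.sq_mem O (by rw [← hs]; exact hN _ (w : OA).2)
    have h0 : s ≠ 0 := by
      rintro rfl
      rw [hs, zero_mul, zero_mul] at h2
      exact zero_ne_one h2
    have h4 : s⁻¹ ∈ O := by
      apply SQ95.sq_mem O
      have h5 : s⁻¹ * s⁻¹ = N (((w⁻¹ : OAˣ) : OA) : A) := by
        rw [← mul_inv, ← hs]
        exact inv_eq_of_mul_eq_one_right h2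
      rw [h5]
      exact hN _ ((w⁻¹ : OAˣ) : OA).2
    let s' : Oˣ := ⟨⟨s, h3⟩, ⟨s⁻¹, h4⟩, Subtype.ext (mul_inv_cancel₀ h0),
      Subtype.ext (inv_mul_cancel₀ h0)⟩
    rw [MonoidHom.mem_ker]
    show (QuotientGroup.mk (NU w) : Oˣ ⧸ (powMonoidHom 2 : Oˣ →* Oˣ).range) = 1
    rw [QuotientGroup.eq_one_iff]
    refine ⟨s', ?_⟩
    apply Units.ext
    apply Subtype.ext
    rw [hNU, hs, powMonoidHom_apply]
    show s ^ 2 = s * s
    ring

theorem pi_pow {L : Type} [Field L] {O : ValuationSubring L} {π : L} (H : LocW L O π) (m : ℤ)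
    (h1 : π ^ m ∈ O) (h2 : (π ^ m)⁻¹ ∈ O) : m = 0 := by
  have hi : π⁻¹ ∉ O := (H.unif π H.pi_mem H.pi_ne).2 (by rw [div_self H.pi_ne]; exact O.one_mem)
  have key : ∀ n : ℕ, (π ^ (n + 1))⁻¹ ∉ O := by
    intro n h
    apply hi
    have h3 : π⁻¹ = π ^ n * (π ^ (n + 1))⁻¹ := by
      have := H.pi_ne
      rw [pow_succ]
      field_simp
    rw [h3]
    exact O.mul_mem _ _ (pow_mem H.pi_mem n) h
  rcases lt_trichotomy m 0 with h | h | h
  · exfalso
    obtain ⟨n, hn⟩ : ∃ n : ℕ, m = -((n + 1 : ℕ) : ℤ) := ⟨(-m - 1).toNat, by omega⟩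
    rw [hn, zpow_neg, zpow_natCast] at h1
    exact key n h1
  · exact h
  · exfalso
    obtain ⟨n, hn⟩ : ∃ n : ℕ, m = ((n + 1 : ℕ) : ℤ) := ⟨(m - 1).toNat, by omega⟩
    rw [hn, zpow_natCast] at h2
    exact key n h2

end Pool.PNF.NS53

namespace Pool.PNF

open Polynomial Pool.HYP Pool.TOW Pool.AVS Pool.T1 Pool.PRK IsLocalRing Pool.TOW.UD NS53

theorem nsc (hSQN : SQNStmt) (hEXT : EXT3Stmt) (hIR : IR3Stmt) : NSCStmt := by
  intro L _ O π e hD f₀ hf
  have hirr := hIR L O f₀ hf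
  have : Fact (Irreducible (oL O f₀)) := ⟨hirr⟩
  obtain ⟨OA, hDA, hqA, hmem⟩ := hEXT L O π e hD f₀ hf
  have hm := hf.1
  have H := hD.loc
  have HA := hDA.loc
  set f : L[X] := oL O f₀ with hfdef
  have hfin : Module.finrank L (AdjoinRoot f) = 3 := by
    rw [(AdjoinRoot.powerBasis hirr.ne_zero).finrank, AdjoinRoot.powerBasis_dim, ← hf.2.1]
    exact hm.natDegree_map _
  have hfin' : Module.Finite L (AdjoinRoot f) := Module.finite_of_finrank_pos (by omega)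
  let NN : AdjoinRoot f →*₀ L :=
    { Algebra.norm L with map_zero' := Algebra.norm_zero }
  have hNdiv : ∀ a b : AdjoinRoot f, Algebra.norm L (a / b) = Algebra.norm L a / Algebra.norm L b :=
    fun a b => map_div₀ NN a b
  have hNinv : ∀ a : AdjoinRoot f, Algebra.norm L a⁻¹ = (Algebra.norm L a)⁻¹ :=
    fun a => map_inv₀ NN a
  have hNzpow : ∀ (a : AdjoinRoot f) (n : ℤ), Algebra.norm L (a ^ n) = (Algebra.norm L a) ^ n :=
    fun a n => map_zpow₀ NN a n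
  have hNc : ∀ c : L, Algebra.norm L (algebraMap L (AdjoinRoot f) c) = c ^ 3 := by
    intro c
    rw [Algebra.norm_algebraMap, hfin]
  have hN : ∀ a ∈ OA, Algebra.norm L a ∈ O := by
    intro a ha
    obtain ⟨p, rfl⟩ := (hmem a).1 ha
    have h1 : Algebra.norm L (AdjoinRoot.mk (oL O f₀) (oL O p)) =
        algebraMap O L (Algebra.norm O (AdjoinRoot.mk f₀ p)) :=
      NMU.norm_map (algebraMap O L) f₀ p hm
    rw [h1]
    exact (Algebra.norm O (AdjoinRoot.mk f₀ p)).2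
  have hc : ∀ c ∈ O, algebraMap L (AdjoinRoot f) c ∈ OA := by
    intro c hc
    refine (hmem _).2 ⟨C ⟨c, hc⟩, ?_⟩
    have h1 : oL O (C (⟨c, hc⟩ : O)) = C c := Polynomial.map_C _
    rw [h1, AdjoinRoot.mk_C]
    rfl
  obtain ⟨K, hK, hKm⟩ := core O OA (Algebra.norm L : AdjoinRoot f →* L) hN hc hNc
  have hq : 0 < qq O := by
    have := hD.fin
    exact Nat.card_pos
  rw [hSQN _ OA _ e hDA, hSQN L O π e hD, hqA, ← pow_mul] at hK
  have hK2 : Nat.card K = qq O ^ (2 * e) := by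
    have h1 : 0 < 2 * qq O ^ e := by positivity
    apply Nat.eq_of_mul_eq_mul_left h1
    rw [← hK]
    ring
  -- the map to the classes
  let j : OAˣ →* (AdjoinRoot f)ˣ := Units.map (OA.subtype : OA →* AdjoinRoot f)
  have hj : ∀ w : OAˣ, ((j w : (AdjoinRoot f)ˣ) : AdjoinRoot f) = ((w : OA) : AdjoinRoot f) :=
    fun w => rfl
  have hle : (powMonoidHom 2 : OAˣ →* OAˣ).range ≤ (SqG f).comap j := by
    rintro _ ⟨w, rfl⟩
    exact ⟨j w, by rw [powMonoidHom_apply, powMonoidHom_apply, map_pow]⟩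
  let Ψ := QuotientGroup.map (powMonoidHom 2 : OAˣ →* OAˣ).range (SqG f) j hle
  have hKfin : Finite K := by
    apply Nat.finite_of_card_ne_zero
    rw [hK2]
    positivity
  have hsub : NsS f ⊆ Ψ '' (K : Set _) := by
    rintro ξ ⟨u, p, rfl, hu, hns⟩
    obtain ⟨n, hn1, hn2⟩ := HA.arch (u : AdjoinRoot f) u.ne_zero
    have hpA := HA.pi_ne
    set ϖ : AdjoinRoot f := AdjoinRoot.of f π with hϖ
    have hpn : ϖ ^ n ≠ 0 := zpow_ne_zero _ hpA
    have hu0 : (u : AdjoinRoot f) ≠ 0 := u.ne_zero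
    have hw0 : (u : AdjoinRoot f) / ϖ ^ n ≠ 0 := div_ne_zero hu0 hpn
    obtain ⟨s, hs⟩ := hns
    rw [hu] at hs
    have hNϖ : Algebra.norm L ϖ = π ^ 3 := hNc π
    have hNw : Algebra.norm L ((u : AdjoinRoot f) / ϖ ^ n) = s * s / π ^ (3 * n) := by
      rw [hNdiv, hNzpow, hNϖ, hs, ← zpow_natCast, ← zpow_mul]
      norm_num
    have hs0 : s ≠ 0 := by
      rintro rfl
      have h1 : Algebra.norm L (u : AdjoinRoot f) ≠ 0 := by
        rw [Ne, Algebra.norm_eq_zero_iff]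
        exact hu0
      exact h1 (by rw [hs, zero_mul])
    obtain ⟨k, hk1, hk2⟩ := H.arch s hs0
    have hpi := H.pi_ne
    have h3n : 2 * k - 3 * n = 0 := by
      have e1 : π ^ (2 * k - 3 * n) =
          Algebra.norm L ((u : AdjoinRoot f) / ϖ ^ n) * ((s / π ^ k)⁻¹ * (s / π ^ k)⁻¹) := by
        rw [hNw, zpow_sub₀ hpi, two_mul, zpow_add₀ hpi]
        have := zpow_ne_zero k hpi
        have := zpow_ne_zero (3 * n) hpi
        field_simp
      have e2 : (π ^ (2 * k - 3 * n))⁻¹ =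
          Algebra.norm L ((u : AdjoinRoot f) / ϖ ^ n)⁻¹ * ((s / π ^ k) * (s / π ^ k)) := by
        rw [e1, hNinv, mul_inv, mul_inv, inv_inv]
      apply pi_pow H
      · rw [e1]
        exact O.mul_mem _ _ (hN _ hn1) (O.mul_mem _ _ hk2 hk2)
      · rw [e2]
        exact O.mul_mem _ _ (hN _ hn2) (O.mul_mem _ _ hk1 hk1)
    obtain ⟨i, rfl⟩ : ∃ i, n = 2 * i := ⟨k - n, by omega⟩
    let w : OAˣ := ⟨⟨_, hn1⟩, ⟨_, hn2⟩, Subtype.ext (mul_inv_cancel₀ hw0),
      Subtype.ext (inv_mul_cancel₀ hw0)⟩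
    refine ⟨QuotientGroup.mk w, hKm w ⟨s / π ^ (3 * i), ?_⟩, ?_⟩
    · show Algebra.norm L ((u : AdjoinRoot f) / ϖ ^ (2 * i)) = _
      rw [hNw, div_mul_div_comm, ← zpow_add₀ hpi]
      congr 2
      ring
    · show (QuotientGroup.mk (j w) : (AdjoinRoot f)ˣ ⧸ SqG f) = QuotientGroup.mk u
      rw [QuotientGroup.eq]
      have hpi' : ϖ ^ i ≠ 0 := zpow_ne_zero _ hpA
      refine ⟨Units.mk0 (ϖ ^ i) hpi', ?_⟩
      rw [powMonoidHom_apply, eq_comm, inv_mul_eq_iff_eq_mul]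
      apply Units.ext
      show (u : AdjoinRoot f) = (u : AdjoinRoot f) / ϖ ^ (2 * i) * (ϖ ^ i) ^ 2
      rw [← zpow_natCast, ← zpow_mul, mul_comm i]
      push_cast
      field_simp
  have hKf : ((K : Set (OAˣ ⧸ (powMonoidHom 2 : OAˣ →* OAˣ).range))).Finite := hKfin
  have hfinI : (Ψ '' (K : Set (OAˣ ⧸ (powMonoidHom 2 : OAˣ →* OAˣ).range))).Finite :=
    hKf.image _
  refine ⟨hfinI.subset hsub, ?_⟩
  calc (NsS f).ncard ≤ (Ψ '' (K : Set _)).ncard := Set.ncard_le_ncard hsub hfinI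
    _ ≤ (K : Set (OAˣ ⧸ (powMonoidHom 2 : OAˣ →* OAˣ).range)).ncard := Set.ncard_image_le hKf
    _ = Nat.card K := (Nat.card_coe_set_eq _).symm
    _ = qq O ^ (2 * e) := hK2

end Pool.PNF
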