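import Pool.Agent.H14.PNF.S6
import Pool.Agent.H45.PRK.SHAK
import Pool.Agent.H46.NF.Bx
import Pool.Agent.H50.NF.NCO

/-!
# PNF, row SHAN: translation
-/

set_option autoImplicit false

namespace Pool.PNF

open Polynomial Matrix NumberField IsDedekindDomain Pool.HYP Pool.TOW Pool.AVS Pool.T1 Pool.NF
  Pool.PRK Pool.HYP.H20

namespace SHA53

section Sel

variable {K : Type} [Field K]

theorem sel_comp {f f' : K[X]} {ρ : K} (h : f' = f.comp (X + C ρ)) :
    ((SelN f').Finite ↔ (SelN f).Finite) ∧ (SelN f').ncard = (SelN f).ncard := by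
  classical
  set E := trE f f' ρ h with hE
  set e : (AdjoinRoot f)ˣ ≃* (AdjoinRoot f')ˣ :=
    Units.mapEquiv (E : AdjoinRoot f ≃* AdjoinRoot f') with he
  have hSq : (SqG f).map (e : (AdjoinRoot f)ˣ →* (AdjoinRoot f')ˣ) = SqG f' := by
    ext x
    constructor
    · rintro ⟨y, ⟨z, hz⟩, hy⟩
      refine ⟨e z, ?_⟩
      rw [← hy, ← hz]
      exact (map_pow e z 2).symm
    · rintro ⟨z, hz⟩
      refine ⟨e.symm x, ⟨e.symm z, ?_⟩, e.apply_symm_apply x⟩
      rw [← hz]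
      exact (map_pow e.symm z 2).symm
  set Q : ((AdjoinRoot f)ˣ ⧸ SqG f) ≃* ((AdjoinRoot f')ˣ ⧸ SqG f') :=
    QuotientGroup.congr _ _ e hSq with hQ
  have hQmk : ∀ u : (AdjoinRoot f)ˣ, Q (QuotientGroup.mk u) = QuotientGroup.mk (e u) :=
    fun u => rfl
  have heE : ∀ u : (AdjoinRoot f)ˣ, ((e u : (AdjoinRoot f')ˣ) : AdjoinRoot f') =
      E (u : AdjoinRoot f) := fun u => rfl
  have hback : f'.comp (X + C (-ρ)) = f := by rw [h, comp_comp_add]
  have hl1 : ∀ (L : Type) [Field L] (ι : K →+* L) (p : K[X]), LocSol (f'.map ι) (p.map ι) →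
      LocSol (f.map ι) ((p.comp (X + C (-ρ))).map ι) := by
    intro L _ ι p hp
    have h3 := locSol_comp (-ι ρ) hp
    have h4 : (f'.map ι).comp (X + C (-ι ρ)) = f.map ι := by
      have h5 := congrArg (fun p => p.map ι) hback
      simp only [Polynomial.map_comp] at h5
      simpa using h5
    have h5 : (p.comp (X + C (-ρ))).map ι = (p.map ι).comp (X + C (-ι ρ)) := by
      rw [Polynomial.map_comp]
      simp
    rw [h4] at h3
    rw [h5]
    exact h3
  have hl2 : ∀ (L : Type) [Field L] (ι : K →+* L) (p : K[X]), LocSol (f.map ι) (p.map ι) →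
      LocSol (f'.map ι) ((p.comp (X + C ρ)).map ι) := by
    intro L _ ι p hp
    have h3 := locSol_comp (ι ρ) hp
    have h4 : (f.map ι).comp (X + C (ι ρ)) = f'.map ι := by
      rw [h, Polynomial.map_comp]
      simp
    have h5 : (p.comp (X + C ρ)).map ι = (p.map ι).comp (X + C (ι ρ)) := by
      rw [Polynomial.map_comp]
      simp
    rw [h4] at h3
    rw [h5]
    exact h3
  have hS : SelN f' = Q '' SelN f := by
    ext ξ
    constructor
    · rintro ⟨u, p, hu, hp, hn, hl, hr⟩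
      have hEp : E (AdjoinRoot.mk f (p.comp (X + C (-ρ)))) = AdjoinRoot.mk f' p := by
        rw [hE, trE_mk, comp_comp_add']
      refine ⟨QuotientGroup.mk (e.symm u), ⟨e.symm u, p.comp (X + C (-ρ)), rfl, ?_, ?_,
        fun L _ O ι hι => hl1 L ι p (hl L O ι hι), fun σ => hl1 ℝ σ p (hr σ)⟩, ?_⟩
      · apply E.injective
        rw [hEp, hp, ← heE, e.apply_symm_apply]
      · have h3 := Algebra.norm_eq_of_algEquiv E (AdjoinRoot.mk f (p.comp (X + C (-ρ))))
        rw [hEp] at h3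
        unfold NSq at hn ⊢
        rw [← h3]
        exact hn
      · rw [hQmk, e.apply_symm_apply]
        exact hu
    · rintro ⟨η, ⟨u, p, hu, hp, hn, hl, hr⟩, hη⟩
      have hEp : E (AdjoinRoot.mk f p) = AdjoinRoot.mk f' (p.comp (X + C ρ)) := by
        rw [hE, trE_mk]
      refine ⟨e u, p.comp (X + C ρ), ?_, ?_, ?_,
        fun L _ O ι hι => hl2 L ι p (hl L O ι hι), fun σ => hl2 ℝ σ p (hr σ)⟩
      · rw [← hQmk, hu, hη]
      · rw [heE, ← hp, hEp]
      · have h3 := Algebra.norm_eq_of_algEquiv E (AdjoinRoot.mk f p)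
        rw [hEp] at h3
        unfold NSq at hn ⊢
        rw [h3]
        exact hn
  rw [hS]
  exact ⟨Set.finite_image_iff Q.injective.injOn, Set.ncard_image_of_injective _ Q.injective⟩

end Sel

section Fam

variable {K : Type} [Field K] [NumberField K]

theorem law_tay {ε : ℝ} {D : DatN K} {dS : Finset (HeightOneSpectrum (𝓞 K)) → 𝓞 K}
    {f : (𝓞 K)[X]} (t : 𝓞 K) : LawTN ε D dS (taylor t f) ↔ LawTN ε D dS f := by
  have hS : ∀ S : Finset (HeightOneSpectrum (𝓞 K)),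
      ((SelN (fk K ((taylor t f).scaleRoots (dS S)))).Finite ↔
        (SelN (fk K (f.scaleRoots (dS S)))).Finite) ∧
      (SelN (fk K ((taylor t f).scaleRoots (dS S)))).ncard =
        (SelN (fk K (f.scaleRoots (dS S)))).ncard := by
    intro S
    refine sel_comp (ρ := algebraMap (𝓞 K) K (dS S * t)) ?_
    rw [SHAK.tay_scale]
    have h1 : fk K (taylor (dS S * t) (f.scaleRoots (dS S))) =
      taylor (algebraMap (𝓞 K) K (dS S * t)) (fk K (f.scaleRoots (dS S))) := map_taylor _ _ _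
    rw [h1, taylor_apply]
  unfold LawTN
  simp only [fun S => (hS S).1, fun S => (hS S).2]

theorem tay3 {f : (𝓞 K)[X]} (t : 𝓞 K) (hm : f.Monic) (hn : f.natDegree = 3)
    (h2 : f.coeff 2 = 0) : (taylor t f).coeff 2 = 3 * t ∧
      (taylor t f).coeff 1 = f.coeff 1 + 3 * (t * t) ∧
      (taylor t f).coeff 0 = f.coeff 0 + f.coeff 1 * t + t * (t * t) := by
  have h3 : f.coeff 3 = 1 := by
    have := hm.coeff_natDegree
    rwa [hn] at this
  refine ⟨?_, ?_, ?_⟩
  · rw [SHAK.tay_coeff, hn]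
    simp [Finset.sum_range_succ, h2, h3, Nat.choose]
  · rw [SHAK.tay_coeff, hn]
    simp [Finset.sum_range_succ, h2, h3, Nat.choose]
    ring
  · rw [SHAK.tay_coeff, hn]
    simp [Finset.sum_range_succ, h2, h3, Nat.choose]
    ring

theorem fam_tay {D : DatN K} {Y : ℕ} (hY : 1 ≤ Y) {f : (𝓞 K)[X]} {t : 𝓞 K}
    (hf : f ∈ FamZN D Y) (ht : t ∈ TrN D Y) : taylor t f ∈ FamN D Y := by
  obtain ⟨⟨hm, hn, hnear, hT, hT'⟩, h2, h1, h0⟩ := hf
  obtain ⟨e2, e1, e0⟩ := tay3 t hm hn h2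
  have hY' : (0 : ℝ) < Y := by exact_mod_cast hY
  have hy : (0 : ℝ) ≤ (Y : ℝ) / 1000 := by positivity
  have htt : t * t ∈ Bx K ((Y : ℝ) / 1000 * ((Y : ℝ) / 1000)) := NCO50.bx_mul hy ht.1 ht.1
  refine ⟨?_, by rw [natDegree_taylor, hn], ⟨?_, ?_, ?_⟩, ?_, ?_⟩
  · rw [Monic, leadingCoeff_taylor]
    exact hm
  · rw [e2]
    have h3 : (3 : 𝓞 K) * t = t + (t + t) := by ring
    rw [h3]
    refine bx_mono ?_ (bx_add ht.1 (bx_add ht.1 ht.1))
    linarith
  · rw [e1]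
    have h3 : f.coeff 1 + (3 : 𝓞 K) * (t * t) = f.coeff 1 + (t * t + (t * t + t * t)) := by ring
    rw [h3]
    refine bx_mono ?_ (bx_add h1 (bx_add htt (bx_add htt htt)))
    have : 0 ≤ (Y : ℝ) ^ 2 := by positivity
    ring_nf
    ring_nf at this
    linarith
  · rw [e0]
    have h3 : f.coeff 0 + f.coeff 1 * t + t * (t * t) + (Y : 𝓞 K) ^ 3 =
        (f.coeff 0 + (Y : 𝓞 K) ^ 3) + (f.coeff 1 * t + t * (t * t)) := by ring
    rw [h3]
    refine bx_mono ?_ (bx_add h0 (bx_add (NCO50.bx_mul (by positivity) h1 ht.1)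
      (NCO50.bx_mul hy ht.1 htt)))
    have : 0 ≤ (Y : ℝ) ^ 3 := by positivity
    ring_nf
    ring_nf at this
    linarith
  · intro P hP
    have e : taylor t f - (X - C (D.c P)) * D.γ P = (taylor t f - f) +
      (f - (X - C (D.c P)) * D.γ P) := by ring
    rw [e]
    exact SHAK.zer_add (SHAK.zer_tay_sub f (ht.2 P (Or.inl hP))) (hT P hP)
  · intro P hP
    have e : taylor t f - D.ρ P = (taylor t f - f) + (f - D.ρ P) := by ring
    rw [e]
    exact SHAK.zer_add (SHAK.zer_tay_sub f (ht.2 P (Or.inr hP))) (hT' P hP)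

end Fam

end SHA53

theorem shan : SHANStmt := by
  intro K _ _ D Y _ hY hfin _ ε dS _
  rw [← Set.ncard_prod]
  refine Set.ncard_le_ncard_of_injOn (fun z : 𝓞 K × (𝓞 K)[X] => taylor z.1 z.2) ?_ ?_
    (hfin.subset fun f hf => hf.1.1)
  · rintro ⟨t, f⟩ ⟨ht, ⟨hf, hs⟩, hl⟩
    exact ⟨⟨SHA53.fam_tay hY hf ht, SHAK.smooth_tay t hs⟩,
      fun h => hl ((SHA53.law_tay t).1 h)⟩
  · rintro ⟨t, f⟩ ⟨ht, ⟨hf, hs⟩, hl⟩ ⟨t', f'⟩ ⟨ht', ⟨hf', hs'⟩, hl'⟩ he
    have he' : taylor t f = taylor t' f' := he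
    have h1 := (SHA53.tay3 t hf.1.1 hf.1.2.1 hf.2.1).1
    have h2 := (SHA53.tay3 t' hf'.1.1 hf'.1.2.1 hf'.2.1).1
    rw [he', h2] at h1
    have h3 : t = t' := (mul_left_cancel₀ (by norm_num) h1).symm
    subst h3
    exact Prod.ext rfl (taylor_injective _ he')

end Pool.PNF
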