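import Pool.Agent.H14.PNF.Base
import Pool.Agent.H46.NF.L
import Pool.Agent.H2.NF.S3
import Pool.Agent.H81.TOW.LW

/-!
# PNF: statements of the modules: the completions above two

`L` is a complete discretely valued field with finite residue field of order `q` and characteristic
two, `2` has order `e`, `f₀ = x³ + a x² + b x + c` over `O` is irreducible modulo the uniformizer.
There are at most `q^(2 e)` classes of square norm, and at least `q^e` of them are classes of points.
-/

set_option autoImplicit false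

namespace Pool.PNF

open Polynomial NumberField IsDedekindDomain Pool.HYP Pool.TOW Pool.AVS Pool.T1 Pool.NF Pool.PRK

section Defs

/-- `L` is complete, discretely valued with uniformizer `π`, with finite residue field, and `2` has
order `e ≥ 1`. -/
structure Dyd (L : Type) [Field L] (O : ValuationSubring L) (π : L) (e : ℕ) : Prop where
  loc : UD.LocW L O π
  ne : (2 : L) ≠ 0
  two : 2 / π ^ e ∈ O ∧ (2 / π ^ e)⁻¹ ∈ O
  pos : 1 ≤ e
  cpl : IsAdicComplete (IsLocalRing.maximalIdeal O) O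
  fin : Finite (IsLocalRing.ResidueField O)

/-- `f₀` is monic of degree three and irreducible modulo the maximal ideal. -/
def Ir3 {L : Type} [Field L] (O : ValuationSubring L) (f₀ : O[X]) : Prop :=
  f₀.Monic ∧ f₀.natDegree = 3 ∧ Irreducible (rd O f₀)

/-- The classes of square norm. -/
def NsS {L : Type} [Field L] (f : L[X]) : Set ((AdjoinRoot f)ˣ ⧸ SqG f) :=
  {ξ | ∃ (u : (AdjoinRoot f)ˣ) (p : L[X]), (QuotientGroup.mk u : (AdjoinRoot f)ˣ ⧸ SqG f) = ξ ∧
    AdjoinRoot.mk f p = (u : AdjoinRoot f) ∧ NSq f p}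

/-- The elliptic curve `y² = x³ + a x² + b x + c`. -/
abbrev WE {L : Type} [Field L] (a b c : L) : WeierstrassCurve L := ⟨0, a, 0, b, c⟩

/-- The parameter `x / y`. -/
noncomputable def tP {L : Type} [Field L] {a b c : L} : (WE a b c).toAffine.Point → L
  | .zero => 0
  | .some x y _ => x / y

/-- The point reduces to the point at infinity. -/
def Ner {L : Type} [Field L] {a b c : L} (O : ValuationSubring L) :
    (WE a b c).toAffine.Point → Prop
  | .zero => True
  | .some x _ _ => x ∉ O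

/-- The class of a point. -/
noncomputable def cls {L : Type} [Field L] {a b c : L} : (WE a b c).toAffine.Point → L[X]
  | .zero => 1
  | .some x _ _ => C x - X

/-- The cubic polynomial. -/
noncomputable def cu {L : Type} [Field L] (a b c : L) : L[X] :=
  X ^ 3 + C a * X ^ 2 + C b * X + C c

end Defs

/-! ### Units modulo squares -/

/-- SQC: `1 + 4 π p` is a square modulo a monic polynomial.  (`O[x]/(f₀)` is complete;
`z ↦ p - π z²` is a contraction: `(1 + 2 π z)² = 1 + 4 π (z + π z²)`.) -/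
def SQCStmt : Prop :=
  ∀ (L : Type) [Field L] (O : ValuationSubring L) (π : L) (e : ℕ), Dyd L O π e →
    ∀ (ϖ : O), (ϖ : L) = π → ∀ f₀ p : O[X], f₀.Monic →
    ∃ z : O[X], f₀ ∣ (1 + 2 * C ϖ * z) ^ 2 - (1 + 4 * C ϖ * p)

/-- SQN: the units modulo squares.  (`1 + 4 π O` consists of squares (SQC with `f₀ = X`), so this is
`G / G²` for the finite group `G` of the units of `O / π^(2 e + 1)`; `#(G / G²)` is the number of the
`u` in `G` with `u² = 1`; `(u - 1) (u + 1) = 0` modulo `π^(2 e + 1)` iff `u` is `1` or `-1` modulo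
`π^(e + 1)`: two different classes as `2` has order `e`; `q^e` elements in each.) -/
def SQNStmt : Prop :=
  ∀ (L : Type) [Field L] (O : ValuationSubring L) (π : L) (e : ℕ), Dyd L O π e →
    Nat.card (Oˣ ⧸ (powMonoidHom 2 : Oˣ →* Oˣ).range) = 2 * qq O ^ e

/-- EXT3: the unramified cubic extension.  (UNR of HYP without `Loc`, compare `UD.W`; `O[x]/(f₀)` is
a complete discrete valuation ring with residue field `k[x]/(f₀)`; `π` is a uniformizer.) -/
def EXT3Stmt : Prop :=
  ∀ (L : Type) [Field L] (O : ValuationSubring L) (π : L) (e : ℕ), Dyd L O π e →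
    ∀ f₀ : O[X], Ir3 O f₀ → ∀ [Fact (Irreducible (oL O f₀))],
    ∃ OA : ValuationSubring (AdjoinRoot (oL O f₀)),
      Dyd (AdjoinRoot (oL O f₀)) OA (AdjoinRoot.of (oL O f₀) π) e ∧ qq OA = qq O ^ 3 ∧
      ∀ a : AdjoinRoot (oL O f₀), a ∈ OA ↔ ∃ p : O[X], a = AdjoinRoot.mk (oL O f₀) (oL O p)

/-- IR3: `f₀` is irreducible over `L`.  (`Polynomial.Monic.irreducible_of_irreducible_map`, and
Gauss' lemma for the integrally closed ring `O`.) -/
def IR3Stmt : Prop :=
  ∀ (L : Type) [Field L] (O : ValuationSubring L) (f₀ : O[X]), Ir3 O f₀ →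
    Irreducible (oL O f₀)

/-- NSC: the classes of square norm.  (Such a class is the class of a unit: its order is even since
the norm has three times the order.  `N : OA^*/sq → O^*/sq` is onto, as `N a = a³` for `a` in `O`;
the kernel has `2 q^(3 e) / (2 q^e)` elements by SQN for `OA` and for `O`.) -/
def NSCStmt : Prop :=
  ∀ (L : Type) [Field L] (O : ValuationSubring L) (π : L) (e : ℕ), Dyd L O π e →
    ∀ f₀ : O[X], Ir3 O f₀ → (NsS (oL O f₀)).Finite ∧ (NsS (oL O f₀)).ncard ≤ qq O ^ (2 * e)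

/-! ### Points near infinity -/

/-- TSQ: the parameter of a point near infinity.  (`2 v(y) = 3 v(x)`.) -/
def TSQStmt : Prop :=
  ∀ (L : Type) [Field L] (O : ValuationSubring L) (π : L), UD.LocW L O π →
    ∀ a b c x y : L, a ∈ O → b ∈ O → c ∈ O → y ^ 2 = x ^ 3 + a * x ^ 2 + b * x + c → x ∉ O →
    y ≠ 0 ∧ x / y / π ∈ O ∧ (x / y) ^ 2 * x ∈ O ∧ ((x / y) ^ 2 * x)⁻¹ ∈ O

/-- TSU: every element of the maximal ideal is a parameter.  (`x = 1 / (z² u)`, `y = 1 / (z³ u)`,
`u = 1 + a z² u + b z⁴ u² + c z⁶ u³` by Hensel's lemma or a fixed point.) -/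
def TSUStmt : Prop :=
  ∀ (L : Type) [Field L] (O : ValuationSubring L) (π : L) (e : ℕ), Dyd L O π e →
    ∀ a b c z : L, a ∈ O → b ∈ O → c ∈ O → z ≠ 0 → z / π ∈ O →
    ∃ x y : L, y ^ 2 = x ^ 3 + a * x ^ 2 + b * x + c ∧ x ∉ O ∧ x / y = z

/-- DBL: doubling near infinity.  (`x(2 R) = (x⁴ - 2 b x² - 8 c x + b² - 4 a c) / (4 y²)` has order
`v(x) - 2 e`; TSQ.) -/
def DBLStmt : Prop :=
  ∀ (L : Type) [Field L] [DecidableEq L] (O : ValuationSubring L) (π : L) (e : ℕ),
    Dyd L O π e → ∀ a b c : L, a ∈ O → b ∈ O → c ∈ O → ∀ R : (WE a b c).toAffine.Point,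
    Ner O R → Ner O (R + R) ∧
      ∀ j : ℕ, tP R / π ^ j ∈ O → tP (R + R) / π ^ (j + e) ∈ O

/-- ADD: addition near infinity.  (In the coordinates `z = x / y`, `w = 1 / y` the curve is
`w = z³ + a z² w + b z w² + c w³`.  For `R`, `D` with `z₁ ≠ z₂` the line through them is
`w = λ z + ν`, `(w₁ - w₂) (1 - a z₂² - b z₂ (w₁ + w₂) - c (w₁² + w₁ w₂ + w₂²)) =
(z₁ - z₂) (z₁² + z₁ z₂ + z₂² + a (z₁ + z₂) w₁ + b w₁²)`, so `λ` is in the maximal ideal, and
`ν = w₂ - λ z₂` is in `z₂ O`; for the third point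
`z₁ + z₂ + z₃ = -(a ν + 2 b λ ν + 3 c λ² ν) / (1 + a λ + b λ² + c λ³)`, and `z₃ = - t(R + D)`.
If `z₁ = z₂` then `w₁ = w₂`, `R = D`: DBL.  Or `D = -R`.) -/
def ADDStmt : Prop :=
  ∀ (L : Type) [Field L] [DecidableEq L] (O : ValuationSubring L) (π : L) (e : ℕ),
    Dyd L O π e → ∀ a b c : L, a ∈ O → b ∈ O → c ∈ O → ∀ R D : (WE a b c).toAffine.Point,
    Ner O R → Ner O D → Ner O (R + D) ∧
      ∀ j : ℕ, tP D / π ^ j ∈ O → (tP (R + D) - tP R) / π ^ j ∈ O

/-- FIE: the points near infinity have finite index.  (For `x` in `O` also `f(x)` is a unit, `y` is a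
unit.  If `(x₁, y₁)`, `(x₂, y₂)` are integral, different and congruent modulo `π^(e + 1)` then
`y₁ + y₂` has order `e`, `x₁ ≠ x₂` and `x(P - Q) = ((y₁ + y₂) / (x₁ - x₂))² - a - x₁ - x₂` is not in
`O`.  So there are at most `q^(2 e + 2) + 1` cosets.) -/
def FIEStmt : Prop :=
  ∀ (L : Type) [Field L] [DecidableEq L] (O : ValuationSubring L) (π : L) (e : ℕ),
    Dyd L O π e → ∀ a b c : O,
    Ir3 O (X ^ 3 + C a * X ^ 2 + C b * X + C c) →
    ∀ H : AddSubgroup (WE (a : L) (b : L) (c : L)).toAffine.Point, (∀ P, P ∈ H ↔ Ner O P) →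
    H.FiniteIndex

/-! ### Classes of points -/

/-- KPI: halving.  (If `P`, `Q` and `P + Q` are not zero and the first coordinates are different, the
line through `P` and `Q` gives `(x₁ - x) (x₂ - x) (x₃ - x) = ℓ²` modulo `f`, so the class of
`-(P + Q)` is trivial and this point is a double: `DIVK.half` in H36/T1/DIVK and the doubling
formula; then `P - Q = (P + Q) - (Q + Q)`.  There are no points of order two.) -/
def KPIStmt : Prop :=
  ∀ (L : Type) [Field L] [DecidableEq L], (2 : L) ≠ 0 → ∀ a b c : L, Irreducible (cu a b c) →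
    (∀ P : (WE a b c).toAffine.Point, P + P = 0 → P = 0) ∧
    ∀ (P Q : (WE a b c).toAffine.Point) (s : L[X]), cu a b c ∣ cls P * cls Q - s ^ 2 →
      ∃ R : (WE a b c).toAffine.Point, P - Q = R + R

/-- KNL: the class of a point is the class of a divisor of square norm (`u = X - x`; the norm of
`x - X` is `f(x) = y²`, `y ≠ 0`). -/
def KNLStmt : Prop :=
  ∀ (L : Type) [Field L] (a b c : L), Irreducible (cu a b c) →
    ∀ P : (WE a b c).toAffine.Point, IsCoprime (cls P) (cu a b c) ∧ NSq (cu a b c) (cls P) ∧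
      LocSol (cu a b c) (cls P)

/-- IDX: index of the doubles.  (`[A : 2 A] = [H : 2 H]` since multiplication by two is injective and
`[A : H]` is finite; `2 H ≤ H'`.) -/
def IDXStmt : Prop :=
  ∀ (A : Type) [AddCommGroup A] (H H' : AddSubgroup A), H.FiniteIndex →
    (∀ a : A, a + a = 0 → a = 0) → (∀ a ∈ H, a + a ∈ H') →
    ∀ (ι : Type) [Finite ι] (p : ι → A), (∀ i, p i ∈ H) → (∀ i j, p i - p j ∈ H' → i = j) →
    ∀ (κ : Type) [Finite κ] (φ : A → κ), (∀ a b, φ a = φ b → ∃ c, a - b = c + c) →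
    Nat.card ι ≤ Nat.card κ

/-- LSC: at least `q^e` classes are classes of points (helper8).  (ADD and DBL: the points near
infinity with `t` in `π^j O` form a subgroup, for `j = 1` of finite index by FIE; by TSU and ADD there
are `q^e` points near infinity, whose differences are not in the subgroup for `j = e + 1`; IDX with
the classes of the points, KPI, KNL.) -/
def LSCStmt : Prop :=
  ∀ (L : Type) [Field L] (O : ValuationSubring L) (π : L) (e : ℕ), Dyd L O π e →
    ∀ f₀ : O[X], Ir3 O f₀ → ∃ p : Fin (qq O ^ e) → L[X],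
      (∀ i, IsCoprime (p i) (oL O f₀) ∧ NSq (oL O f₀) (p i) ∧ LocSol (oL O f₀) (p i)) ∧
      ∀ i j, (∃ s : L[X], IsCoprime s (oL O f₀) ∧ oL O f₀ ∣ p i - p j * s ^ 2) → i = j

/-- DYI: the index of the classes of divisors.  (NSC, LSC; MUL of NF: the classes of divisors form a
subgroup; `ψ p` is the number of its coset.) -/
def DYIStmt : Prop :=
  ∀ (L : Type) [Field L] (O : ValuationSubring L) (π : L) (e : ℕ), Dyd L O π e →
    ∀ f₀ : O[X], Ir3 O f₀ → ∃ ψ : L[X] → Fin (qq O ^ e), ∀ p q : L[X],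
      IsCoprime p (oL O f₀) → NSq (oL O f₀) p → IsCoprime q (oL O f₀) → NSq (oL O f₀) q →
      ψ p = ψ q → LocSol (oL O f₀) (p * q)

/-! ### From the completions to the number field -/

/-- DYA: the completions above two. -/
def DYAStmt : Prop :=
  ∀ (K : Type) [Field K] [NumberField K] (L : Type) [Field L] (O : ValuationSubring L)
    (ι : K →+* L), Cpl K L O ι → (2 : L)⁻¹ ∉ O →
    ∃ (P : HeightOneSpectrum (𝓞 K)) (π : L) (e : ℕ), Dyd L O π e ∧
      (∀ x : K, ι x ∈ O ↔ x ∈ RP K P) ∧ (2 : 𝓞 K) ∈ P.asIdeal ^ e ∧ qq O = Nm P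

/-- PR2: the product of the `q^e` is at most `2^n`.  (The product of the `P^(e P)` contains `2`, and
`𝓞 K / (2)` has `2^n` elements.) -/
def PR2Stmt : Prop :=
  ∀ (K : Type) [Field K] [NumberField K] (s : Finset (HeightOneSpectrum (𝓞 K)))
    (e : HeightOneSpectrum (𝓞 K) → ℕ), (∀ P ∈ s, (2 : 𝓞 K) ∈ P.asIdeal ^ e P) →
    ∏ P ∈ s, Nm P ^ e P ≤ 2 ^ dg K

/-- TRC: from one completion to another one.  (RDU of NF; approximate `x`, `y`, `s` by elements of
`K`: then `f(x') = y'² (1 + 8 ..)` and `α s'² = (x' - X) (1 + 8 ..)` modulo `f`, which are squares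
over the other completion by SQC.) -/
def TRCStmt : Prop :=
  ∀ (K : Type) [Field K] [NumberField K] (L : Type) [Field L] (O : ValuationSubring L)
    (ι : K →+* L) (L' : Type) [Field L'] (O' : ValuationSubring L') (ι' : K →+* L'),
    Cpl K L O ι → (2 : L)⁻¹ ∉ O → Cpl K L' O' ι' → (∀ x : K, ι x ∈ O ↔ ι' x ∈ O') →
    ∀ (f : (𝓞 K)[X]) (α : K[X]), f.Monic → f.natDegree = 3 → Irreducible ((fk K f).map ι) →
    IsCoprime α (fk K f) → LocSol ((fk K f).map ι) (α.map ι) →
    LocSol ((fk K f).map ι') (α.map ι')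

/-- DYK: the index of the classes with `Loc2`.  (CMP2: a completion for every prime above two; DYA,
DYI, IRL2 of NF, PR2: `ψ` is the product of the `ψ` for these completions; TRC.) -/
def DYKStmt : Prop :=
  ∀ (K : Type) [Field K] [NumberField K] (D : DatN K) (Y : ℕ), D.Ok → ∀ f ∈ FamN D Y,
    ∃ ψ : K[X] → Fin (2 ^ dg K), ∀ α β : K[X], IsCoprime α (fk K f) → NSq (fk K f) α →
      IsCoprime β (fk K f) → NSq (fk K f) β → ψ α = ψ β → Loc2 f (α * β)

/-- RC2N: the number of the classes with `Loc2`.  (DYK; one of the fibres of `ψ` on `RcG` has at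
least `2^m` elements, multiply it by one of its elements; USMK of T1.) -/
def RC2NStmt : Prop :=
  ∀ (K : Type) [Field K] [NumberField K] (D : DatN K) (Y m : ℕ), D.Ok → ∀ f ∈ FamN D Y,
    (RcG K D.T f).Finite → 2 ^ (m + dg K) ≤ (RcG K D.T f).ncard → 2 ^ m ≤ (RcL D.T f).ncard

/-- CGNA: the end of (1), from RC2N and the conclusion of CGU (`H85/PN/U`). -/
def CGNAStmt : Prop :=
  RC2NStmt → (∀ (K : Type) [Field K] [NumberField K] (D : DatN K) (Y : ℕ), D.Ok →
    ∀ f ∈ FamN D Y, Smooth f → (RcG K D.T f).Finite →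
      2 ^ (D.T.card + dg K) ≤ (RcG K D.T f).ncard) →
  ∀ (K : Type) [Field K] [NumberField K], CgN K

theorem cgna : CGNAStmt := by
  intro h1 h2 K _ _ D Y hD _ f hf hfin
  exact h1 K D Y D.T.card hD f hf.1 hfin (h2 K D Y hD f hf.1 hf.2 hfin)

end Pool.PNF
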