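import Pool.Agent.H53.PNF.D
import Pool.Agent.H81.TOW.LW2

/-!
# PNF, row EXT3: the unramified extension
-/

set_option autoImplicit false

namespace Pool.PNF.EX

open Polynomial Pool.HYP Pool.TOW Pool.AVS Pool.T1 Pool.PRK IsLocalRing Pool.TOW.UD

section

variable {L : Type} [Field L] {O : ValuationSubring L} {π : L}

/-- The uniformizer. -/
def pp (H : LocW L O π) : O := ⟨π, H.pi_mem⟩

theorem res_pp (H : LocW L O π) : residue O (pp H) = 0 := W2.res_pi H (ϖ := pp H) rfl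

theorem zpow_mem' (H : LocW L O π) {n : ℤ} (hn : 0 ≤ n) : π ^ n ∈ O := by
  lift n to ℕ using hn
  rw [zpow_natCast]
  exact pow_mem H.pi_mem n

/-- Every nonzero polynomial over `L` is a power of `π` times a primitive polynomial. -/
theorem scale (H : LocW L O π) (r : L[X]) (hr : r ≠ 0) :
    ∃ (n : ℤ) (p : O[X]), r = C (π ^ n) * oL O p ∧ rd O p ≠ 0 ∧ p.degree = r.degree := by
  have hpi := H.pi_ne
  choose! ν h1 h2 using H.arch
  obtain ⟨i₀, hi₀, hmin⟩ := r.support.exists_min_image (fun i => ν (r.coeff i))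
    (support_nonempty.2 hr)
  have hc : r.coeff i₀ ≠ 0 := mem_support_iff.1 hi₀
  have hn0 : π ^ ν (r.coeff i₀) ≠ 0 := zpow_ne_zero _ hpi
  have hO : ∀ i, (π ^ ν (r.coeff i₀))⁻¹ * r.coeff i ∈ O := by
    intro i
    by_cases h : r.coeff i = 0
    · rw [h, mul_zero]; exact O.zero_mem
    · have h3 := hmin i (mem_support_iff.2 h)
      have h4 := h1 _ h
      have h5 : (π ^ ν (r.coeff i₀))⁻¹ * r.coeff i =
          π ^ (ν (r.coeff i) - ν (r.coeff i₀)) * (r.coeff i / π ^ ν (r.coeff i)) := by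
        have hn1 : π ^ ν (r.coeff i) ≠ 0 := zpow_ne_zero _ hpi
        rw [zpow_sub₀ hpi]
        field_simp
      rw [h5]
      exact O.mul_mem _ _ (zpow_mem' H (by simpa using h3)) h4
  have hl : C ((π ^ ν (r.coeff i₀))⁻¹) * r ∈ lifts (algebraMap O L) := by
    rw [lifts_iff_coeff_lifts]
    intro i
    rw [coeff_C_mul]
    exact ⟨⟨_, hO i⟩, rfl⟩
  obtain ⟨p, hp⟩ := (mem_lifts _).1 hl
  have hr2 : r = C (π ^ ν (r.coeff i₀)) * oL O p := by
    rw [show oL O p = _ from hp, ← mul_assoc, ← C_mul, mul_inv_cancel₀ hn0, C_1, one_mul]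
  refine ⟨ν (r.coeff i₀), p, hr2, ?_, ?_⟩
  · intro h0
    have h6 : IsLocalRing.residue O (p.coeff i₀) = 0 := by
      rw [← coeff_map]
      exact (congrArg (fun q => q.coeff i₀) h0).trans (coeff_zero _)
    have h7 : algebraMap O L (p.coeff i₀) = r.coeff i₀ / π ^ ν (r.coeff i₀) := by
      rw [← coeff_map, hp, coeff_C_mul]
      field_simp
    have h8 : IsUnit (p.coeff i₀) := by
      refine IsUnit.of_mul_eq_one (⟨_, h2 _ hc⟩ : O) ?_
      apply Subtype.ext
      change algebraMap O L (p.coeff i₀) * (r.coeff i₀ / π ^ ν (r.coeff i₀))⁻¹ = 1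
      rw [h7]
      exact mul_inv_cancel₀ (div_ne_zero hc hn0)
    exact (h8.map (IsLocalRing.residue O)).ne_zero h6
  · have h9 : (oL O p).degree = p.degree := degree_map_eq_of_injective
      (IsFractionRing.injective O L) p
    rw [← h9]
    conv_rhs => rw [hr2]
    rw [degree_C_mul hn0]

/-- A primitive polynomial of degree less than `γ` is a unit modulo `γ`. -/
theorem cop (γ p : O[X]) (hγ : γ.Monic) (hi : Irreducible (rd O γ)) (hp : rd O p ≠ 0)
    (hd : p.degree < γ.degree) : IsCoprime (rd O p) (rd O γ) := by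
  refine IsCoprime.symm ((Irreducible.coprime_iff_not_dvd hi).2 fun h => ?_)
  have h1 := degree_le_of_dvd h hp
  have h2 : (rd O γ).degree = γ.degree := hγ.degree_map _
  rw [h2] at h1
  exact absurd (h1.trans degree_map_le) (not_le.2 hd)

/-- The map from the polynomials over `O` to the extension. -/
noncomputable def mkO (f₀ : O[X]) : O[X] →+* AdjoinRoot (oL O f₀) :=
  (AdjoinRoot.mk (oL O f₀)).comp (mapRingHom (algebraMap O L))

theorem mkO_apply (f₀ p : O[X]) : mkO f₀ p = AdjoinRoot.mk (oL O f₀) (oL O p) := rfl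

theorem mkO_self (f₀ : O[X]) : mkO f₀ f₀ = 0 := AdjoinRoot.mk_self

theorem mkO_eq_zero {f₀ : O[X]} (hm : f₀.Monic) (p : O[X]) : mkO f₀ p = 0 ↔ f₀ ∣ p := by
  rw [mkO_apply, AdjoinRoot.mk_eq_zero]
  exact map_dvd_map (algebraMap O L) (IsFractionRing.injective O L) hm

theorem mkO_C (f₀ : O[X]) (a : O) : mkO f₀ (C a) = AdjoinRoot.of (oL O f₀) (a : L) := by
  rw [mkO_apply]
  have h1 : oL O (C a) = C (a : L) := Polynomial.map_C _
  rw [h1, AdjoinRoot.mk_C]

theorem unit_of_cop {f₀ : O[X]} (hm : f₀.Monic) {p : O[X]}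
    (h : IsCoprime (rd O p) (rd O f₀)) :
    ∃ q : O[X], mkO f₀ p * mkO f₀ q = 1 ∧ IsCoprime (rd O q) (rd O f₀) := by
  obtain ⟨x, y, hxy⟩ := H20.coprime_of_residue hm h
  refine ⟨x, ?_, ?_⟩
  · have h1 := congrArg (mkO f₀) hxy
    rw [map_add, map_mul, map_mul, mkO_self, mul_zero, add_zero, map_one] at h1
    rw [mul_comm]
    exact h1
  · refine ⟨rd O p, rd O y, ?_⟩
    have h1 := congrArg (rd O) hxy
    simp only [rd, Polynomial.map_add, Polynomial.map_mul, Polynomial.map_one] at h1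
    rw [mul_comm]
    exact h1

variable {f₀ : O[X]} [Fact (Irreducible (oL O f₀))]

theorem of_pi_ne (H : LocW L O π) : AdjoinRoot.of (oL O f₀) π ≠ 0 := by
  intro h
  exact H.pi_ne ((AdjoinRoot.of (oL O f₀)).injective (by rw [h, map_zero]))

theorem form (H : LocW L O π) (hm : f₀.Monic) (hi : Irreducible (rd O f₀))
    (a : AdjoinRoot (oL O f₀)) (ha : a ≠ 0) :
    ∃ (n : ℤ) (p : O[X]), IsCoprime (rd O p) (rd O f₀) ∧
      a = (AdjoinRoot.of (oL O f₀) π) ^ n * mkO f₀ p := by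
  obtain ⟨h, rfl⟩ := AdjoinRoot.mk_surjective a
  have hM : (oL O f₀).Monic := hm.map _
  have hr : h %ₘ oL O f₀ ≠ 0 := fun h0 => ha
    (AdjoinRoot.mk_eq_zero.2 ((modByMonic_eq_zero_iff_dvd hM).1 h0))
  obtain ⟨n, p, h1, h2, h3⟩ := scale H _ hr
  refine ⟨n, p, cop f₀ p hm hi h2 ?_, ?_⟩
  · rw [h3]
    have h4 := degree_modByMonic_lt h hM
    rwa [show (oL O f₀).degree = f₀.degree from hm.degree_map _] at h4
  · have h5 : AdjoinRoot.mk (oL O f₀) h = AdjoinRoot.mk (oL O f₀) (h %ₘ oL O f₀) := by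
      have h6 := modByMonic_add_div h (oL O f₀)
      conv_lhs => rw [← h6]
      rw [map_add, map_mul, AdjoinRoot.mk_self, zero_mul, add_zero]
    rw [h5, h1, map_mul, mkO_apply]
    congr 1
    rw [AdjoinRoot.mk_C, map_zpow₀]

/-- A power of `π` times a unit is integral iff the exponent is not negative. -/
theorem mem_iff (H : LocW L O π) (hm : f₀.Monic) (hi : Irreducible (rd O f₀)) (n : ℤ) (p : O[X])
    (hp : IsCoprime (rd O p) (rd O f₀)) :
    (AdjoinRoot.of (oL O f₀) π) ^ n * mkO f₀ p ∈ (mkO f₀).range ↔ 0 ≤ n := by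
  have hpi : mkO f₀ (C (pp H)) = AdjoinRoot.of (oL O f₀) π := mkO_C f₀ (pp H)
  constructor
  · rintro ⟨q, hq⟩
    by_contra hn
    push Not at hn
    obtain ⟨m, hm'⟩ : ∃ m : ℕ, -n = m + 1 := ⟨(-n - 1).toNat, by omega⟩
    have h1 : mkO f₀ p = mkO f₀ (C (pp H) ^ (m + 1) * q) := by
      rw [map_mul, map_pow, hpi, hq, ← mul_assoc]
      have h2 : (AdjoinRoot.of (oL O f₀) π) ^ (m + 1) * (AdjoinRoot.of (oL O f₀) π) ^ n = 1 := by
        have h3 : n = -((m + 1 : ℕ) : ℤ) := by push_cast; omega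
        rw [h3, zpow_neg, zpow_natCast]
        exact mul_inv_cancel₀ (pow_ne_zero _ (of_pi_ne H))
      rw [h2, one_mul]
    have h4 : f₀ ∣ p - C (pp H) ^ (m + 1) * q := by
      rw [← mkO_eq_zero hm, map_sub, h1, sub_self]
    have h5 : rd O f₀ ∣ rd O p := by
      have h6 := Polynomial.map_dvd (IsLocalRing.residue O) h4
      rw [Polynomial.map_sub, Polynomial.map_mul, Polynomial.map_pow, map_C, res_pp H, C_0,
        zero_pow (by omega), zero_mul, sub_zero] at h6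
      exact h6
    exact ((Irreducible.coprime_iff_not_dvd hi).1 hp.symm) h5
  · intro hn
    lift n to ℕ using hn
    refine ⟨C (pp H) ^ n * p, ?_⟩
    rw [map_mul, map_pow, hpi, zpow_natCast]

/-- The valuation ring of the extension. -/
noncomputable def OA (H : LocW L O π) (hm : f₀.Monic) (hi : Irreducible (rd O f₀)) :
    ValuationSubring (AdjoinRoot (oL O f₀)) where
  toSubring := (mkO f₀).range
  mem_or_inv_mem' := by
    intro a
    rcases eq_or_ne a 0 with rfl | ha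
    · left
      exact ⟨0, map_zero _⟩
    · obtain ⟨n, p, hp, rfl⟩ := form H hm hi a ha
      rcases le_or_gt 0 n with hn | hn
      · left
        exact (mem_iff H hm hi n p hp).2 hn
      · right
        obtain ⟨q, hq, hq'⟩ := unit_of_cop hm hp
        have h1 : ((AdjoinRoot.of (oL O f₀) π) ^ n * mkO f₀ p)⁻¹ =
            (AdjoinRoot.of (oL O f₀) π) ^ (-n) * mkO f₀ q := by
          rw [mul_inv, zpow_neg]
          congr 1
          exact inv_eq_of_mul_eq_one_right hq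
        show _ ∈ (mkO f₀).range
        rw [h1]
        exact (mem_iff H hm hi (-n) q hq').2 (by omega)

theorem mem_OA (H : LocW L O π) (hm : f₀.Monic) (hi : Irreducible (rd O f₀))
    (a : AdjoinRoot (oL O f₀)) : a ∈ OA H hm hi ↔ ∃ p : O[X], a = mkO f₀ p := by
  constructor
  · rintro ⟨p, hp⟩
    exact ⟨p, hp.symm⟩
  · rintro ⟨p, hp⟩
    exact ⟨p, hp.symm⟩

theorem mem_OA' (H : LocW L O π) (hm : f₀.Monic) (hi : Irreducible (rd O f₀)) (n : ℤ) (p : O[X])
    (hp : IsCoprime (rd O p) (rd O f₀)) :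
    (AdjoinRoot.of (oL O f₀) π) ^ n * mkO f₀ p ∈ OA H hm hi ↔ 0 ≤ n :=
  mem_iff H hm hi n p hp

theorem inv_form (H : LocW L O π) (hm : f₀.Monic) (n : ℤ) (p : O[X])
    (hp : IsCoprime (rd O p) (rd O f₀)) : ∃ q : O[X], IsCoprime (rd O q) (rd O f₀) ∧
      ((AdjoinRoot.of (oL O f₀) π) ^ n * mkO f₀ p)⁻¹ =
        (AdjoinRoot.of (oL O f₀) π) ^ (-n) * mkO f₀ q := by
  obtain ⟨q, hq, hq'⟩ := unit_of_cop hm hp
  refine ⟨q, hq', ?_⟩
  rw [mul_inv, zpow_neg]
  congr 1
  exact inv_eq_of_mul_eq_one_right hq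

theorem locW (H : LocW L O π) (hm : f₀.Monic) (hi : Irreducible (rd O f₀)) :
    LocW (AdjoinRoot (oL O f₀)) (OA H hm hi) (AdjoinRoot.of (oL O f₀) π) where
  pi_ne := of_pi_ne H
  pi_mem := (mem_OA H hm hi _).2 ⟨C (pp H), (mkO_C f₀ (pp H)).symm⟩
  unif := by
    intro x hx hx0
    obtain ⟨n, p, hp, rfl⟩ := form H hm hi x hx0
    have hn := (mem_OA' H hm hi n p hp).1 hx
    obtain ⟨q, hq, hq'⟩ := inv_form H hm n p hp
    have h1 : (AdjoinRoot.of (oL O f₀) π) ^ n * mkO f₀ p / AdjoinRoot.of (oL O f₀) π =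
        (AdjoinRoot.of (oL O f₀) π) ^ (n - 1) * mkO f₀ p := by
      rw [zpow_sub_one₀ (of_pi_ne H), div_eq_mul_inv]
      ring
    rw [hq', mem_OA' H hm hi _ q hq, h1, mem_OA' H hm hi _ p hp]
    omega
  arch := by
    intro x hx0
    obtain ⟨n, p, hp, rfl⟩ := form H hm hi x hx0
    refine ⟨n, ?_⟩
    have h1 : (AdjoinRoot.of (oL O f₀) π) ^ n * mkO f₀ p / (AdjoinRoot.of (oL O f₀) π) ^ n =
        (AdjoinRoot.of (oL O f₀) π) ^ (0 : ℤ) * mkO f₀ p := by
      have h2 : (AdjoinRoot.of (oL O f₀) π) ^ n ≠ 0 := zpow_ne_zero _ (of_pi_ne H)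
      rw [zpow_zero]
      field_simp
    rw [h1]
    obtain ⟨q, hq, hq'⟩ := inv_form H hm 0 p hp
    exact ⟨(mem_OA' H hm hi _ p hp).2 le_rfl, by rw [hq']; exact (mem_OA' H hm hi _ q hq).2 (by simp)⟩

end

end Pool.PNF.EX
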